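import Pool.Agent.SQ.Up.Stmt
import Pool.Agent.Helper50.SG.MV
import Pool.Agent.SQ.HH.L2Dual

/-!
# Groups in the class `Up n` have no `ℓ²`-homology above the degree `n / 2`
-/

set_option autoImplicit false

universe u

namespace SQ

open Singer

/-- the theorem for residually unitriangular subgroups of Poincare duality groups -/
def StmtSub : Prop :=
  ∀ (P : Type) [Group P] (n : ℕ), IsPD n P → ∀ K : Subgroup P, T2.ResUT K ⊥ → ∀ (R : FinRes K) (i : ℕ), n < 2 * i →
    R.VanE i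

/-- a resolution which is zero in degree `i` -/
theorem van_of_isEmpty {Γ : Type u} [Group Γ] (R₀ : FinRes Γ) {i : ℕ} (h : IsEmpty (R₀.ι i)) (R : Res.{0} Γ) :
    R.Z i ≤ R.B i := by
  have h0 : R₀.VanE i := by
    intro x _ _ ε hε
    refine ⟨0, fun j => ?_, fun S => ?_⟩
    · simp
    · have h1 : ∀ g ∈ S, ∑ j, ‖x j g - rmul (0 : R₀.ι (i + 1) → Γ → ℂ) (R₀.d i) j g‖ ^ 2 = 0 := fun g _ =>
        Finset.sum_of_isEmpty _
      rw [Finset.sum_eq_zero h1]
      exact hε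
  have h1 : R₀.toRes.Z i ≤ R₀.toRes.B i := (R₀.van_iff_le i).1 ((R₀.van_iff_vanE i).2 h0)
  rw [← Res.h_eq_zero_iff, Res.h_eq R R₀.toRes, Res.h_eq_zero_iff]
  exact h1

/-- **vanishing** for the groups of the class -/
theorem Up.van (hS : StmtSub) {n : ℕ} {Γ : Type u} [Group Γ] (h : Up n Γ) {i : ℕ} (hi : n < 2 * i)
    (R : Res.{0} Γ) : R.Z i ≤ R.B i := by
  induction h generalizing i with
  | @sub n Γ _ P _ K F j hn hK hj hjf =>
    exact (R.van_iff_index j hj hjf F i).1 ((F.van_iff_vanE i).2 (hS P n hn K hK F i hi))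
  | dim R₀ h0 => exact van_of_isEmpty R₀ (h0 i hi) R
  | supergroup j hj hf _ ih =>
    obtain ⟨T⟩ := exists_trv_hom j hj hf
    exact (T.vanish_iff R i).1 (ih hi (T.res R))
  | subgroup j R' hj hf _ ih =>
    obtain ⟨T⟩ := exists_trv_hom j hj hf
    have h1 := (T.vanish_iff R'.toRes i).2 (ih hi R'.toRes)
    rw [← Res.h_eq_zero_iff, Res.h_eq R (T.res R'.toRes), Res.h_eq_zero_iff]
    exact h1
  | mono hmn _ ih => exact ih (lt_of_le_of_lt hmn hi) R
  | @mirror n Γ V _ _ T F hT _ ih =>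
    classical
    obtain ⟨tree, act, inv, hF, ⟨K, hK⟩, RV, RE⟩ := hT
    obtain ⟨S, I, SM, h⟩ := tree_le T tree act inv (fun x : F => x.1) (fun v => by
      obtain ⟨x, hx, g, hg⟩ := hF v
      exact ⟨⟨x, hx⟩, g, hg⟩) K hK (fun v => (RV v).some) (fun v w hvw => (RE v w hvw).some)
    rw [← Res.h_eq_zero_iff, Res.h_eq R S]
    refine le_antisymm ((h i).trans (le_of_eq ?_)) (HC.h_nonneg _ i)
    refine Finset.sum_eq_zero fun j _ => ?_
    exact (Res.h_eq_zero_iff (SM j) i).2 (ih j.1.1 j.1.2 hi (SM j))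
  | @tree m n Γ V _ _ T F hT hm _ _ ihV ihE =>
    obtain ⟨tree, act, inv, hF, ⟨K, hK⟩, RV, RE⟩ := hT
    refine van_tree T tree act inv F K hF hK RV RE (fun x hx R => ihV x hx hi R) (fun j hj v w hvw R => ?_) R
    exact ihE v w hvw (by omega) R
  | @vertex n G V _ _ T F v hT _ _ ihG ihE =>
    obtain ⟨tree, act, inv, hF, ⟨K, hK⟩, RV, RE⟩ := hT
    exact van_vertex T tree act inv F K hF hK RV RE (fun R => ihG hi R) (fun v w hvw R => ihE v w hvw hi R) v R

/-- the elementary form -/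
theorem Up.vanE (hS : StmtSub) {n : ℕ} {Γ : Type u} [Group Γ] (h : Up n Γ) {i : ℕ} (hi : n < 2 * i) (R : FinRes Γ) :
    R.VanE i := by
  rw [← R.van_iff_vanE, R.van_iff_le]
  exact h.van hS hi _

/-- **the Singer conjecture** for the Poincare duality groups of the class -/
theorem Up.vanE_pd (hS : StmtSub) {n : ℕ} {Γ : Type} [Group Γ] (h : Up n Γ) (hn : IsPD n Γ) {i : ℕ} (hi : 2 * i ≠ n)
    (R : FinRes Γ) : R.VanE i := by
  rcases lt_or_gt_of_ne hi with h1 | h1
  · exact ((l2_dual R hn).1 i (n - i) (by omega)).2 (h.vanE hS (by omega) R)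
  · exact h.vanE hS h1 R

end SQ
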